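import Mathlib

/-! Integrability of the sum of a series of integrable functions. -/

set_option autoImplicit false

open MeasureTheory Filter Topology Set

namespace EC237.PF

theorem enorm_sum_ne_top {ι α : Type*} {m : MeasurableSpace α} {μ : Measure α} {F : ι → α → ℝ}
    (hF : ∀ i, Integrable (F i) μ) (hs : Summable fun i => ∫ a, ‖F i a‖ ∂μ) :
    ∑' i, ∫⁻ a : α, ‖F i a‖ₑ ∂μ ≠ ⊤ := by
  have (i : ι) : ∫⁻ a, ‖F i a‖ₑ ∂μ = ‖∫ a, ‖F i a‖ ∂μ‖ₑ := by
    rw [← ofReal_integral_norm_eq_lintegral_enorm (hF i),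
      Real.enorm_of_nonneg (integral_nonneg (fun a ↦ norm_nonneg (F i a)))]
  rw [funext this]
  exact ENNReal.tsum_coe_ne_top_iff_summable.2 <| NNReal.summable_coe.1 hs.abs

/-- a.e. absolute convergence -/
theorem ae_summable {ι α : Type*} [Countable ι] {m : MeasurableSpace α} {μ : Measure α}
    {F : ι → α → ℝ} (hF : ∀ i, Integrable (F i) μ) (hs : Summable fun i => ∫ a, ‖F i a‖ ∂μ) :
    ∀ᵐ a ∂μ, Summable fun i => F i a := by
  have h1 := enorm_sum_ne_top hF hs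
  have h2 : ∫⁻ a, ∑' i, ‖F i a‖ₑ ∂μ = ∑' i, ∫⁻ a : α, ‖F i a‖ₑ ∂μ :=
    lintegral_tsum fun i => (hF i).1.enorm
  rw [← h2] at h1
  have h3 := ae_lt_top' (AEMeasurable.tsum fun i => (hF i).1.enorm) h1
  filter_upwards [h3] with a ha
  have h4 : Summable fun i => ‖F i a‖₊ := ENNReal.tsum_coe_ne_top_iff_summable.1 ha.ne
  exact (NNReal.summable_coe.2 h4).of_norm

theorem integrable_tsum {ι α : Type*} [Countable ι] {m : MeasurableSpace α} {μ : Measure α}
    {F : ι → α → ℝ} (hF : ∀ i, Integrable (F i) μ) (hs : Summable fun i => ∫ a, ‖F i a‖ ∂μ) :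
    Integrable (fun a => ∑' i, F i a) μ := by
  have h1 := enorm_sum_ne_top hF hs
  have h2 : ∫⁻ a, ∑' i, ‖F i a‖ₑ ∂μ = ∑' i, ∫⁻ a : α, ‖F i a‖ₑ ∂μ :=
    lintegral_tsum fun i => (hF i).1.enorm
  refine ⟨?_, ?_⟩
  · refine aestronglyMeasurable_of_tendsto_ae (atTop : Filter (Finset ι))
      (f := fun s a => ∑ i ∈ s, F i a) (fun s => ?_) ?_
    · exact Finset.aestronglyMeasurable_fun_sum s fun i _ => (hF i).1
    · filter_upwards [ae_summable hF hs] with a ha
      exact ha.hasSum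
  · rw [HasFiniteIntegral]
    refine lt_of_le_of_lt (lintegral_mono fun a => enorm_tsum_le_tsum_enorm) ?_
    rw [h2]
    exact lt_top_iff_ne_top.2 h1

end EC237.PF
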