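import Pool.Agent.Helper23.EC.Interface

/-!
# MP_ecc237_nt, PART F (Rogers-Zudilin step): definitions
q-series for real `q`, index `p : ℕ × ℕ` with `M = p.1 + 1`, `ν = p.2 + 1`.
-/

set_option autoImplicit false

open MeasureTheory Filter Topology Set

namespace EC237

/-- `a(q) = 1 + 6 Σ χ(M) q^{Mν}`. -/
noncomputable def aS (q : ℝ) : ℝ :=
  1 + 6 * ∑' p : ℕ × ℕ, chi ((p.1:ℤ) + 1) * q ^ ((p.1 + 1) * (p.2 + 1))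

/-- `X(q) = Σ χ(M) ν² q^{Mν}`. -/
noncomputable def XS (q : ℝ) : ℝ :=
  ∑' p : ℕ × ℕ, chi ((p.1:ℤ) + 1) * ((p.2:ℝ) + 1) ^ 2 * q ^ ((p.1 + 1) * (p.2 + 1))

/-- `b₃(q) = 1 - 9 Σ χ(M) M² q^{Mν}`. -/
noncomputable def bS (q : ℝ) : ℝ :=
  1 - 9 * ∑' p : ℕ × ℕ, chi ((p.1:ℤ) + 1) * ((p.1:ℝ) + 1) ^ 2 * q ^ ((p.1 + 1) * (p.2 + 1))

/-- `E₄(q) = 1 + 240 Σ ν³ q^{Mν}`. -/
noncomputable def ES (q : ℝ) : ℝ :=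
  1 + 240 * ∑' p : ℕ × ℕ, ((p.2:ℝ) + 1) ^ 3 * q ^ ((p.1 + 1) * (p.2 + 1))

/-! ### Facts taken from PART C -/

/-- (C10) -/
def C10 : Prop := ∀ q : ℝ, 0 ≤ q → q < 1 → 240 * (aS q * XS q) = ES q - ES (q ^ 3)

/-- (C11), first half -/
def C11a : Prop := ∀ q : ℝ, 0 ≤ q → q < 1 →
  54 * XS q = (aS q + 2 * aS (q ^ 2)) ^ 2 * (aS q - aS (q ^ 2))

/-- (C11), second half -/
def C11b : Prop := ∀ q : ℝ, 0 ≤ q → q < 1 →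
  108 * XS (q ^ 2) = (aS q + 2 * aS (q ^ 2)) * (aS q - aS (q ^ 2)) ^ 2

/-- (C17) -/
def C17 : Prop := ∀ y : ℝ, 0 < y →
  ff y = (4 * aS (Real.exp (-(4 * Real.pi * y))) ^ 2 - aS (Real.exp (-(2 * Real.pi * y))) ^ 2) *
    (aS (Real.exp (-(2 * Real.pi * y))) ^ 2 - aS (Real.exp (-(4 * Real.pi * y))) ^ 2) / 36

/-- (C18) -/
def C18 : Prop := ∀ q : ℝ, 0 ≤ q → q < 1 →
  (aS q - aS (q ^ 4)) ^ 2 = 3 * (aS (q ^ 2) ^ 2 - aS (q ^ 4) ^ 2)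

/-- (C20), `a` -/
def C20a : Prop := ∀ t : ℝ, 0 < t →
  aS (Real.exp (-(2 * Real.pi / (3 * t)))) = Real.sqrt 3 * t * aS (Real.exp (-(2 * Real.pi * t)))

/-- (C20), `X` -/
def C20x : Prop := ∀ t : ℝ, 0 < t →
  XS (Real.exp (-(2 * Real.pi / (3 * t)))) =
    t ^ 3 * bS (Real.exp (-(2 * Real.pi * t))) / (3 * Real.sqrt 3)

/-- (C20), `f` -/
def C20f : Prop := ∀ y : ℝ, 0 < y → ff (1 / (6 * y)) = 36 * y ^ 4 * ff y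

/-- transformation of `E₄` -/
def CE4 : Prop := ∀ t : ℝ, 0 < t →
  ES (Real.exp (-(2 * Real.pi / t))) = t ^ 4 * ES (Real.exp (-(2 * Real.pi * t)))

namespace PF

/-! ### Expansions of `M_0`, `M_2` -/

/-- `(-1)^{μn} sin(πμ/3)`, `μ = p.1+1`, `n = p.2+1`. -/
noncomputable def sn (p : ℕ × ℕ) : ℝ :=
  (-1) ^ ((p.1 + 1) * (p.2 + 1)) * Real.sin (Real.pi * ((p.1:ℝ) + 1) / 3)

/-- term of the expansion of `M_0^e` : `(π²/(9y)) (-1)^{μn} sin(πμ/3) (μ/n) e^{-πμn/(3y)}`. -/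
noncomputable def tM0 (y : ℝ) (p : ℕ × ℕ) : ℝ :=
  Real.pi ^ 2 / (9 * y) * (sn p * (((p.1:ℝ) + 1) / ((p.2:ℝ) + 1)) *
    Real.exp (-(Real.pi * ((p.1:ℝ) + 1) * ((p.2:ℝ) + 1) / (3 * y))))

/-- `M_0^e`. -/
noncomputable def M0e (y : ℝ) : ℝ := ∑' p : ℕ × ℕ, tM0 y p

/-- term of the expansion (F1) of `M_2`, `M = r.1+1`, `ν = r.2+1` :
`-(π³/(4y)) χ(M)(ν²/M²)(-1)^{ν(M-1)}(1+πνMy) e^{-πMνy}`. -/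
noncomputable def tM2 (y : ℝ) (r : ℕ × ℕ) : ℝ :=
  -(Real.pi ^ 3 / (4 * y)) * (chi ((r.1:ℤ) + 1) * (((r.2:ℝ) + 1) ^ 2 / ((r.1:ℝ) + 1) ^ 2) *
    sgn2 r * (1 + Real.pi * ((r.1:ℝ) + 1) * ((r.2:ℝ) + 1) * y) * QQ y r)

/-- the sum of (F1). -/
noncomputable def M2s (y : ℝ) : ℝ := ∑' r : ℕ × ℕ, tM2 y r

/-- term of the expansion (F2) of `M_2` in `z = 1/y`, `μ = p.1+1`, `n = p.2+1`, `c = πμz/3` :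
`(π²z/9)(-1)^{μn} sin(πμ/3) μ (1/n³+c/n²+c²/(2n)) e^{-cn}`. -/
noncomputable def tE (z : ℝ) (p : ℕ × ℕ) : ℝ :=
  Real.pi ^ 2 * z / 9 * (sn p * ((p.1:ℝ) + 1) *
    (1 / ((p.2:ℝ) + 1) ^ 3 + Real.pi * ((p.1:ℝ) + 1) * z / 3 / ((p.2:ℝ) + 1) ^ 2 +
      (Real.pi * ((p.1:ℝ) + 1) * z / 3) ^ 2 / (2 * ((p.2:ℝ) + 1))) *
    Real.exp (-(Real.pi * ((p.1:ℝ) + 1) * z / 3 * ((p.2:ℝ) + 1))))

/-- `E(z) = M_2(1/z) + 2 Z5 z⁴`. -/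
noncomputable def EE (z : ℝ) : ℝ := ∑' p : ℕ × ℕ, tE z p

/-- `Ψ_e(w) = (π²/9) w Σ_μ e^μ sin(πμ/3) μ (1+cw+(cw)²/2) e^{-cw}`, `c = πμ/3`. -/
noncomputable def Psi (e w : ℝ) : ℝ :=
  Real.pi ^ 2 / 9 * w * ∑' m : ℕ, e ^ (m + 1) * Real.sin (Real.pi * ((m:ℝ) + 1) / 3) *
    ((m:ℝ) + 1) * (1 + Real.pi * ((m:ℝ) + 1) / 3 * w + (Real.pi * ((m:ℝ) + 1) / 3 * w) ^ 2 / 2) *
    Real.exp (-(Real.pi * ((m:ℝ) + 1) / 3 * w))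

/-- `Z5 = Σ_{m ≡ 1 (6)} m^{-5}`. -/
noncomputable def Z5 : ℝ := ∑' j : ℤ, 1 / (6 * (j:ℝ) + 1) ^ 5

/-! ### The Rogers-Zudilin function `T` -/

/-- term of `T`: `w.1 = (μ-1, ν-1)`, `w.2 = (M-1, n-1)`:
`-(-1)^{μ(n+1)+ν(M-1)} χ(μ) ν² χ(M) e^{-πμνy - πMn/(3y)}`. -/
noncomputable def tT (y : ℝ) (w : (ℕ × ℕ) × (ℕ × ℕ)) : ℝ :=
  -((-1) ^ ((w.1.1 + 1) * (w.2.2 + 2) + (w.1.2 + 1) * w.2.1)) *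
    (chi ((w.1.1:ℤ) + 1) * ((w.1.2:ℝ) + 1) ^ 2 * chi ((w.2.1:ℤ) + 1)) *
    Real.exp (-(Real.pi * ((w.1.1:ℝ) + 1) * ((w.1.2:ℝ) + 1) * y) -
      Real.pi * ((w.2.1:ℝ) + 1) * ((w.2.2:ℝ) + 1) / (3 * y))

/-- `T(y)`. -/
noncomputable def TT (y : ℝ) : ℝ := Real.sqrt 3 / 2 * ∑' w : (ℕ × ℕ) × (ℕ × ℕ), tT y w

end PF

end EC237
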