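import Mathlib

/-! Functions on `(0,1]` which are polynomials in `1/y` up to exponentially small errors. -/

set_option autoImplicit false

open MeasureTheory Filter Topology Set

namespace EC237

/-- a polynomial is bounded by any exponential -/
theorem poly_le_exp (P : Polynomial ℝ) {c : ℝ} (hc : 0 < c) :
    ∃ C : ℝ, 0 ≤ C ∧ ∀ x : ℝ, 0 ≤ x → |P.eval x| ≤ C * Real.exp (c * x) := by
  induction P using Polynomial.induction_on' with
  | add p q hp hq =>
    obtain ⟨C1, h1, hp⟩ := hp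
    obtain ⟨C2, h2, hq⟩ := hq
    refine ⟨C1 + C2, by positivity, fun x hx => ?_⟩
    rw [Polynomial.eval_add, add_mul]
    exact (abs_add_le _ _).trans (add_le_add (hp x hx) (hq x hx))
  | monomial n a =>
    refine ⟨|a| * n.factorial / c ^ n, by positivity, fun x hx => ?_⟩
    rw [Polynomial.eval_monomial, abs_mul, abs_pow, abs_of_nonneg hx]
    have h := Real.pow_div_factorial_le_exp (c * x) (by positivity) n
    have h2 : x ^ n ≤ n.factorial / c ^ n * Real.exp (c * x) := by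
      have hf : (0:ℝ) < n.factorial := by positivity
      rw [div_le_iff₀ hf, mul_pow] at h
      rw [div_mul_eq_mul_div, le_div_iff₀ (by positivity)]
      linarith
    calc |a| * x ^ n ≤ |a| * (n.factorial / c ^ n * Real.exp (c * x)) := by gcongr
      _ = _ := by ring

/-- `f(y) = P(1/y) + O(e^{-c/y})` on `(0,1]` -/
def EP (f : ℝ → ℝ) (P : Polynomial ℝ) : Prop :=
  ∃ C c : ℝ, 0 < c ∧ ∀ y : ℝ, 0 < y → y ≤ 1 → |f y - P.eval y⁻¹| ≤ C * Real.exp (-(c / y))

theorem EP.nonneg {f : ℝ → ℝ} {P : Polynomial ℝ} (h : EP f P) : ∃ C c : ℝ, 0 ≤ C ∧ 0 < c ∧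
    ∀ y : ℝ, 0 < y → y ≤ 1 → |f y - P.eval y⁻¹| ≤ C * Real.exp (-(c / y)) := by
  obtain ⟨C, c, hc, h⟩ := h
  refine ⟨|C|, c, abs_nonneg _, hc, fun y hy hy1 => (h y hy hy1).trans ?_⟩
  gcongr
  exact le_abs_self C

theorem EP.mono {f : ℝ → ℝ} {P : Polynomial ℝ} {C c c' : ℝ} (hC : 0 ≤ C) (hcc : c' ≤ c)
    (h : ∀ y : ℝ, 0 < y → y ≤ 1 → |f y - P.eval y⁻¹| ≤ C * Real.exp (-(c / y))) :
    ∀ y : ℝ, 0 < y → y ≤ 1 → |f y - P.eval y⁻¹| ≤ C * Real.exp (-(c' / y)) := by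
  intro y hy hy1
  refine (h y hy hy1).trans ?_
  gcongr

theorem EP.add {f g : ℝ → ℝ} {P R : Polynomial ℝ} (h1 : EP f P) (h2 : EP g R) :
    EP (fun y => f y + g y) (P + R) := by
  obtain ⟨C1, c1, hC1, hc1, h1⟩ := h1.nonneg
  obtain ⟨C2, c2, hC2, hc2, h2⟩ := h2.nonneg
  refine ⟨C1 + C2, min c1 c2, lt_min hc1 hc2, fun y hy hy1 => ?_⟩
  have e1 := EP.mono hC1 (min_le_left c1 c2) h1 y hy hy1
  have e2 := EP.mono hC2 (min_le_right c1 c2) h2 y hy hy1
  rw [Polynomial.eval_add, add_mul]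
  calc |f y + g y - (P.eval y⁻¹ + R.eval y⁻¹)|
      = |(f y - P.eval y⁻¹) + (g y - R.eval y⁻¹)| := by ring_nf
    _ ≤ |f y - P.eval y⁻¹| + |g y - R.eval y⁻¹| := abs_add_le _ _
    _ ≤ _ := add_le_add e1 e2

theorem EP.mul {f g : ℝ → ℝ} {P R : Polynomial ℝ} (h1 : EP f P) (h2 : EP g R) :
    EP (fun y => f y * g y) (P * R) := by
  obtain ⟨C1, c1, hC1, hc1, h1⟩ := h1.nonneg
  obtain ⟨C2, c2, hC2, hc2, h2⟩ := h2.nonneg
  set c := min c1 c2 with hcdef
  have hc : 0 < c := lt_min hc1 hc2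
  have e1 := EP.mono hC1 (min_le_left c1 c2) h1
  have e2 := EP.mono hC2 (min_le_right c1 c2) h2
  obtain ⟨A, hA, hPA⟩ := poly_le_exp P (half_pos hc)
  obtain ⟨B, hB, hRB⟩ := poly_le_exp R (half_pos hc)
  refine ⟨A * C2 + B * C1 + C1 * C2, c / 2, half_pos hc, fun y hy hy1 => ?_⟩
  have f1 := e1 y hy hy1
  have f2 := e2 y hy hy1
  rw [← hcdef] at f1 f2
  have g1 := hPA y⁻¹ (by positivity)
  have g2 := hRB y⁻¹ (by positivity)
  have hy' : c / 2 * y⁻¹ = c / 2 / y := by rw [div_eq_mul_inv (c / 2) y]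
  rw [hy'] at g1 g2
  set E := Real.exp (-(c / y)) with hE
  set E' := Real.exp (-(c / 2 / y)) with hE'
  set F := Real.exp (c / 2 / y) with hF
  have hEF : E * F = E' := by
    rw [hE, hF, hE', ← Real.exp_add]; congr 1; ring
  have hEE : E * E ≤ E' := by
    rw [hE, hE', ← Real.exp_add]
    apply Real.exp_le_exp.2
    have : 0 < c / y := by positivity
    have h5 : c / 2 / y = (c / y) / 2 := by ring
    rw [h5]; linarith
  have hE0 : 0 ≤ E := Real.exp_nonneg _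
  rw [Polynomial.eval_mul]
  have key : f y * g y - P.eval y⁻¹ * R.eval y⁻¹ =
      P.eval y⁻¹ * (g y - R.eval y⁻¹) + R.eval y⁻¹ * (f y - P.eval y⁻¹) +
        (f y - P.eval y⁻¹) * (g y - R.eval y⁻¹) := by ring
  rw [key]
  calc |P.eval y⁻¹ * (g y - R.eval y⁻¹) + R.eval y⁻¹ * (f y - P.eval y⁻¹) +
        (f y - P.eval y⁻¹) * (g y - R.eval y⁻¹)|
      ≤ |P.eval y⁻¹| * |g y - R.eval y⁻¹| + |R.eval y⁻¹| * |f y - P.eval y⁻¹| +
        |f y - P.eval y⁻¹| * |g y - R.eval y⁻¹| := by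
        rw [← abs_mul, ← abs_mul, ← abs_mul]
        exact (abs_add_le _ _).trans (add_le_add (abs_add_le _ _) le_rfl)
    _ ≤ (A * F) * (C2 * E) + (B * F) * (C1 * E) + (C1 * E) * (C2 * E) := by gcongr
    _ = A * C2 * (E * F) + B * C1 * (E * F) + C1 * C2 * (E * E) := by ring
    _ ≤ A * C2 * E' + B * C1 * E' + C1 * C2 * E' := by rw [hEF]; gcongr
    _ = _ := by ring

theorem EP.const_mul {f : ℝ → ℝ} {P : Polynomial ℝ} (a : ℝ) (h : EP f P) :
    EP (fun y => a * f y) (Polynomial.C a * P) := by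
  obtain ⟨C, c, hC, hc, h⟩ := h.nonneg
  refine ⟨|a| * C, c, hc, fun y hy hy1 => ?_⟩
  rw [Polynomial.eval_mul, Polynomial.eval_C, ← mul_sub, abs_mul, mul_assoc]
  gcongr
  exact h y hy hy1

theorem tendsto_exp_inv {c : ℝ} (hc : 0 < c) :
    Tendsto (fun y : ℝ => Real.exp (-(c / y))) (𝓝[>] 0) (𝓝 0) := by
  have h1 : Tendsto (fun y : ℝ => c * y⁻¹) (𝓝[>] 0) atTop :=
    tendsto_inv_nhdsGT_zero.const_mul_atTop hc
  have h2 := Real.tendsto_exp_neg_atTop_nhds_zero.comp h1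
  refine h2.congr fun y => ?_
  simp [div_eq_mul_inv]

theorem EP.tendsto {f : ℝ → ℝ} {P : Polynomial ℝ} (h : EP f P) :
    Tendsto (fun y : ℝ => f y - P.eval y⁻¹) (𝓝[>] 0) (𝓝 0) := by
  obtain ⟨C, c, hC, hc, h⟩ := h.nonneg
  have h1 : Tendsto (fun y : ℝ => C * Real.exp (-(c / y))) (𝓝[>] 0) (𝓝 0) := by
    simpa using (tendsto_exp_inv hc).const_mul C
  refine squeeze_zero_norm' ?_ h1
  have hmem : Ioc (0:ℝ) 1 ∈ 𝓝[>] (0:ℝ) := Ioc_mem_nhdsGT zero_lt_one
  filter_upwards [hmem] with y hy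
  exact h y hy.1 hy.2

/-- integration of an exp-polynomial derivative: `g' = O(e^{-c/y})` implies `g = L + O(e^{-c/y})` -/
theorem EP.of_deriv_small {g g' : ℝ → ℝ} (hg : ∀ y : ℝ, 0 < y → HasDerivAt g (g' y) y)
    (h : EP g' 0) : ∃ L : ℝ, EP g (Polynomial.C L) := by
  obtain ⟨C, c, hC, hc, h⟩ := h.nonneg
  simp only [Polynomial.eval_zero, sub_zero] at h
  have key : ∀ u y : ℝ, 0 < u → u ≤ y → y ≤ 1 → |g u - g y| ≤ C * Real.exp (-(c / y)) * y := by
    intro u y hu huy hy1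
    have hb : ∀ x ∈ Icc u y, ‖g' x‖ ≤ C * Real.exp (-(c / y)) := by
      intro x hx
      have hx0 : 0 < x := hu.trans_le hx.1
      refine (h x hx0 (hx.2.trans hy1)).trans ?_
      gcongr
      exact hx.2
    have hmv := (convex_Icc u y).norm_image_sub_le_of_norm_hasDerivWithin_le
      (fun x hx => (hg x (hu.trans_le hx.1)).hasDerivWithinAt) hb
      (right_mem_Icc.2 huy) (left_mem_Icc.2 huy)
    rw [Real.norm_eq_abs, Real.norm_eq_abs] at hmv
    refine hmv.trans ?_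
    gcongr
    rw [abs_sub_comm, abs_of_nonneg (by linarith)]
    linarith
  have hcau : Cauchy (map g (𝓝[>] (0:ℝ))) := by
    rw [Metric.cauchy_iff]
    refine ⟨inferInstance, fun ε hε => ?_⟩
    set δ := min 1 (ε / (2 * (C + 1))) with hδ
    have hδ0 : 0 < δ := lt_min one_pos (by positivity)
    refine ⟨g '' Ioo 0 δ, image_mem_map (Ioo_mem_nhdsGT hδ0), ?_⟩
    have hgen : ∀ a b : ℝ, 0 < a → a ≤ b → b < δ → |g a - g b| < ε := by
      intro a b ha hab hb
      have hb1 : b ≤ 1 := hb.le.trans (min_le_left _ _)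
      have hb2 : b < ε / (2 * (C + 1)) := hb.trans_le (min_le_right _ _)
      refine (key a b ha hab hb1).trans_lt ?_
      have hb0 : 0 < b := ha.trans_le hab
      have he1 : Real.exp (-(c / b)) ≤ 1 := by
        rw [Real.exp_le_one_iff]
        have : 0 < c / b := by positivity
        linarith
      calc C * Real.exp (-(c / b)) * b ≤ C * 1 * b := by gcongr
        _ ≤ (C + 1) * b := by nlinarith
        _ < (C + 1) * (ε / (2 * (C + 1))) := by gcongr
        _ = ε / 2 := by field_simp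
        _ < ε := by linarith
    rintro _ ⟨a, ha, rfl⟩ _ ⟨b, hb, rfl⟩
    rw [Real.dist_eq]
    rcases le_total a b with hab | hab
    · exact hgen a b ha.1 hab hb.2
    · rw [abs_sub_comm]; exact hgen b a hb.1 hab ha.2
  obtain ⟨L, hL⟩ := CompleteSpace.complete hcau
  have hL' : Tendsto g (𝓝[>] 0) (𝓝 L) := hL
  refine ⟨L, C, c, hc, fun y hy hy1 => ?_⟩
  rw [Polynomial.eval_C]
  have hT : Tendsto (fun u => |g u - g y|) (𝓝[>] 0) (𝓝 |L - g y|) :=
    (hL'.sub_const (g y)).abs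
  have hle : |L - g y| ≤ C * Real.exp (-(c / y)) * y := by
    refine le_of_tendsto hT ?_
    filter_upwards [Ioo_mem_nhdsGT hy] with u hu
    exact key u y hu.1 hu.2.le hy1
  rw [abs_sub_comm]
  refine hle.trans ?_
  have : 0 ≤ C * Real.exp (-(c / y)) := by positivity
  nlinarith

end EC237
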