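import Pool.Agent.Helper80.EC_F.Goals

/-!
# MP_ecc237_nt: additional packets for the assembly of (S4)
-/

set_option autoImplicit false

open MeasureTheory Filter Topology Set

namespace EC237.PF

/-- DIFM: differentiability of `M_0`, `M_2` -/
def G_DIFM : Prop := ∀ y : ℝ, 0 < y → DifferentiableAt ℝ M0 y ∧ DifferentiableAt ℝ M2 y

/-- NSG: the functions `n1`, `σ` -/
def G_NSG : Prop := (∀ y : ℝ, 0 < y → HasDerivAt n1 (D1 y) y ∧ HasDerivAt sg (sgp y) y) ∧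
  ContinuousOn D1 (Ioi 0) ∧ ContinuousOn sgp (Ioi 0) ∧
  ∃ C : ℝ, ∀ y : ℝ, 1 ≤ y → |n1 y| ≤ C * Real.exp (-y) ∧ |D1 y| ≤ C * Real.exp (-y) ∧
    |sgp y| ≤ C ∧ |sg y| ≤ C * y

end EC237.PF
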