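import Pool.Agent.Helper80.EC_F.Main
import Pool.Agent.Helper80.EC_F.Goals2
import Pool.Agent.Helper80.EC_F.ExpPoly
import Pool.Agent.Helper23.EC.DDefs

/-! # MP_ecc237_nt: assembly of (S4) (part D, section D.4) -/

set_option autoImplicit false

open MeasureTheory Filter Topology Set

namespace EC237

/-- real part of `𝒫` -/
noncomputable def pf (y : ℝ) : ℝ := (Pf (y:ℂ)).re

/-- real part of `Φ_B` -/
noncomputable def phb (y : ℝ) : ℝ := (PhiB (y:ℂ)).re

theorem hasDerivAt_re {f : ℝ → ℂ} {f' : ℂ} {x : ℝ} (h : HasDerivAt f f' x) :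
    HasDerivAt (fun y => (f y).re) f'.re x := by
  exact (Complex.reCLM.hasFDerivAt (x := f x)).comp_hasDerivAt x h

theorem pf_deriv (h13 : D13) {y : ℝ} (hy : 0 < y) : HasDerivAt pf (-(sg y * D1 y)) y := by
  have h := hasDerivAt_re (h13 y hy)
  rw [Complex.ofReal_re] at h
  exact h

theorem phb_deriv (h15 : D15) {y : ℝ} (hy : 0 < y) : HasDerivAt phb
    (D1 y * pf y + (4 * (M0 y * M2 y) + 4 / 3 * deriv (fun t : ℝ => t * (M0 t * M2 t)) y)) y := by
  have h := hasDerivAt_re (h15 y hy)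
  rw [Complex.add_re, Complex.ofReal_re, Complex.re_ofReal_mul] at h
  exact h

/-- the primitive -/
noncomputable def Gp (y : ℝ) : ℝ :=
  n1 y ^ 2 * sg y + 2 * (n1 y * pf y) - 2 * phb y + 8 / 3 * (y * (M0 y * M2 y))

theorem Gp_deriv (h15 : D15) (h13 : D13) (hN : PF.G_NSG) (hD : PF.G_DIFM) {y : ℝ} (hy : 0 < y) :
    HasDerivAt Gp (n1 y ^ 2 * sgp y - 8 * (M0 y * M2 y)) y := by
  have e1 := (hN.1 y hy).1
  have e2 := (hN.1 y hy).2
  have e3 := pf_deriv h13 hy
  have e4 := phb_deriv h15 hy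
  have hM := hD y hy
  have e5 : HasDerivAt (fun t : ℝ => t * (M0 t * M2 t)) (deriv (fun t : ℝ => t * (M0 t * M2 t)) y) y :=
    (differentiableAt_id.mul (hM.1.mul hM.2)).hasDerivAt
  have h := ((((e1.pow 2).mul e2).add ((e1.mul e3).const_mul 2)).sub (e4.const_mul 2)).add
    (e5.const_mul (8 / 3))
  refine (h.congr_of_eventuallyEq (Eventually.of_forall fun t => ?_)).congr_deriv ?_
  · unfold Gp
    simp only [Pi.add_apply, Pi.sub_apply, Pi.mul_apply, Pi.pow_apply]
  · simp only [Pi.pow_apply]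
    ring

theorem intg (hN : PF.G_NSG) {ε : ℝ} (hε : 0 < ε) :
    IntegrableOn (fun y => n1 y ^ 2 * sgp y) (Ioi ε) := by
  obtain ⟨hder, hc1, hc2, C, hC⟩ := hN
  have hcont : ContinuousOn (fun y => n1 y ^ 2 * sgp y) (Ioi 0) := by
    have : ContinuousOn n1 (Ioi 0) := fun y hy => (hder y hy).1.continuousAt.continuousWithinAt
    exact (this.pow 2).mul hc2
  have h1 : IntegrableOn (fun y => n1 y ^ 2 * sgp y) (Icc ε (max ε 1)) := by
    refine (hcont.mono fun y hy => ?_).integrableOn_Icc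
    exact hε.trans_le hy.1
  have hCn : 0 ≤ C := by
    have := (hC 1 le_rfl).2.2.1
    exact (abs_nonneg _).trans this
  have h2 : IntegrableOn (fun y => n1 y ^ 2 * sgp y) (Ioi (max ε 1)) := by
    have hm : IntegrableOn (fun y : ℝ => C ^ 3 * Real.exp (-y)) (Ioi (max ε 1)) := by
      have h5 := exp_neg_integrableOn_Ioi (max ε 1) one_pos
      simp only [neg_mul, one_mul] at h5
      exact h5.const_mul (C ^ 3)
    refine Integrable.mono' hm ?_ ?_
    · refine (hcont.mono fun y hy => ?_).aestronglyMeasurable measurableSet_Ioi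
      exact (lt_of_lt_of_le hε (le_max_left _ _)).trans hy
    · refine (ae_restrict_iff' measurableSet_Ioi).2 (Eventually.of_forall fun y hy => ?_)
      have hy1 : 1 ≤ y := (le_max_right ε 1).trans (le_of_lt hy)
      obtain ⟨a1, -, a3, -⟩ := hC y hy1
      rw [Real.norm_eq_abs, abs_mul, abs_pow]
      have hexp : Real.exp (-y) ≤ 1 := by rw [Real.exp_le_one_iff]; linarith
      have hexp0 := Real.exp_nonneg (-y)
      calc |n1 y| ^ 2 * |sgp y| ≤ (C * Real.exp (-y)) ^ 2 * C := by gcongr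
        _ = C ^ 3 * (Real.exp (-y) * Real.exp (-y)) := by ring
        _ ≤ C ^ 3 * (Real.exp (-y) * 1) := by gcongr
        _ = _ := by ring
  have h3 := h1.union h2
  refine h3.mono_set fun y hy => ?_
  rcases le_or_gt y (max ε 1) with h | h
  · exact Or.inl ⟨le_of_lt hy, h⟩
  · exact Or.inr h

theorem Gp_top (h13 : D13) (h16 : D16) (hN : PF.G_NSG) (h5a : S5a) :
    Tendsto Gp atTop (𝓝 0) := by
  obtain ⟨hder, hc1, hc2, C, hC⟩ := hN
  have hCn : 0 ≤ C := (abs_nonneg _).trans (hC 1 le_rfl).2.2.1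
  have hexp : Tendsto (fun y : ℝ => Real.exp (-y)) atTop (𝓝 0) :=
    Real.tendsto_exp_neg_atTop_nhds_zero
  have hyexp : Tendsto (fun y : ℝ => y * Real.exp (-y)) atTop (𝓝 0) := by
    have := Real.tendsto_pow_mul_exp_neg_atTop_nhds_zero 1
    simpa using this
  -- growth of pf
  have hpf : ∀ y : ℝ, 1 ≤ y → |pf y| ≤ |pf 1| + C ^ 2 * y := by
    intro y hy
    have hb : ∀ x ∈ Icc (1:ℝ) y, ‖-(sg x * D1 x)‖ ≤ C ^ 2 := by
      intro x hx
      obtain ⟨-, a2, -, a4⟩ := hC x hx.1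
      rw [norm_neg, Real.norm_eq_abs, abs_mul]
      have hx0 : (0:ℝ) ≤ x := zero_le_one.trans hx.1
      have hxe : x * Real.exp (-x) ≤ 1 := by
        have := Real.add_one_le_exp x
        have h2 : Real.exp (-x) = (Real.exp x)⁻¹ := Real.exp_neg x
        rw [h2, ← div_eq_mul_inv, div_le_one (Real.exp_pos x)]
        linarith
      calc |sg x| * |D1 x| ≤ (C * x) * (C * Real.exp (-x)) := by gcongr
        _ = C ^ 2 * (x * Real.exp (-x)) := by ring
        _ ≤ C ^ 2 * 1 := by gcongr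
        _ = _ := by ring
    have hmv := (convex_Icc (1:ℝ) y).norm_image_sub_le_of_norm_hasDerivWithin_le
      (fun x hx => (pf_deriv h13 (zero_lt_one.trans_le hx.1)).hasDerivWithinAt) hb
      (left_mem_Icc.2 hy) (right_mem_Icc.2 hy)
    rw [Real.norm_eq_abs, Real.norm_eq_abs, abs_of_nonneg (by linarith : (0:ℝ) ≤ y - 1)] at hmv
    have h3 : |pf y| ≤ |pf 1| + |pf y - pf 1| := by
      have := abs_add_le (pf 1) (pf y - pf 1)
      simpa using this
    nlinarith [sq_nonneg C]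
  have t1 : Tendsto (fun y => n1 y ^ 2 * sg y) atTop (𝓝 0) := by
    have hub : Tendsto (fun y : ℝ => C ^ 3 * (y * Real.exp (-y))) atTop (𝓝 0) := by
      simpa using hyexp.const_mul (C ^ 3)
    refine squeeze_zero_norm' ?_ hub
    filter_upwards [eventually_ge_atTop 1] with y hy
    obtain ⟨a1, -, -, a4⟩ := hC y hy
    rw [Real.norm_eq_abs, abs_mul, abs_pow]
    have he1 : Real.exp (-y) ≤ 1 := by rw [Real.exp_le_one_iff]; linarith
    have he0 := Real.exp_nonneg (-y)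
    calc |n1 y| ^ 2 * |sg y| ≤ (C * Real.exp (-y)) ^ 2 * (C * y) := by gcongr
      _ = C ^ 3 * (y * (Real.exp (-y) * Real.exp (-y))) := by ring
      _ ≤ C ^ 3 * (y * (Real.exp (-y) * 1)) := by gcongr
      _ = _ := by ring
  have t2 : Tendsto (fun y => n1 y * pf y) atTop (𝓝 0) := by
    have hub : Tendsto (fun y : ℝ => C * |pf 1| * Real.exp (-y) + C ^ 3 * (y * Real.exp (-y)))
        atTop (𝓝 0) := by
      simpa using (hexp.const_mul (C * |pf 1|)).add (hyexp.const_mul (C ^ 3))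
    refine squeeze_zero_norm' ?_ hub
    filter_upwards [eventually_ge_atTop 1] with y hy
    obtain ⟨a1, -, -, -⟩ := hC y hy
    rw [Real.norm_eq_abs, abs_mul]
    have he0 := Real.exp_nonneg (-y)
    calc |n1 y| * |pf y| ≤ (C * Real.exp (-y)) * (|pf 1| + C ^ 2 * y) := by
          gcongr
          exact hpf y hy
      _ = _ := by ring
  have t3 : Tendsto phb atTop (𝓝 0) := by
    have h6 := (Complex.continuous_re.tendsto 0).comp h16
    rw [Complex.zero_re] at h6
    exact h6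
  have t4 := h5a.2
  have := (((t1.add (t2.const_mul 2)).sub (t3.const_mul 2)).add (t4.const_mul (8 / 3)))
  simp only [mul_zero, add_zero, sub_zero] at this
  exact this

theorem Gp_zero (h13 : D13) (hPE : PE) (h3n : S3n) (h3s : S3s) (h3d : S3d) (h5a : S5a) :
    ∃ P : Polynomial ℝ, P.coeff 0 = 0 ∧
      Tendsto (fun ε : ℝ => -Gp ε - P.eval ε⁻¹) (𝓝[>] 0) (𝓝 (Real.pi ^ 3 * zeta5 / 18)) := by
  obtain ⟨PP, hPP, hPt⟩ := hPE
  obtain ⟨⟨Z5, C5, c5, hc5, h5⟩, -⟩ := h5a
  -- exp-polynomials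
  have en : EP n1 (Polynomial.C (-(Real.sqrt 3 * Real.pi ^ 3 / 54)) * Polynomial.X ^ 2) := by
    obtain ⟨C, c, hc, h⟩ := h3n
    refine ⟨C, c, hc, fun y hy hy1 => ?_⟩
    have := h y hy hy1
    simp only [Polynomial.eval_mul, Polynomial.eval_C, Polynomial.eval_pow, Polynomial.eval_X]
    convert this using 2
    ring
  have es : EP sg (Polynomial.C (-(Real.pi ^ 2 / 12)) * Polynomial.X) := by
    obtain ⟨C, c, hc, h⟩ := h3s
    refine ⟨C, c, hc, fun y hy hy1 => ?_⟩
    have := h y hy hy1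
    simp only [Polynomial.eval_mul, Polynomial.eval_C, Polynomial.eval_X]
    convert this using 2
    ring
  have ed : EP D1 (Polynomial.C (Real.sqrt 3 * Real.pi ^ 3 / 27) * Polynomial.X ^ 3) := by
    obtain ⟨C, c, hc, h⟩ := h3d
    refine ⟨C, c, hc, fun y hy hy1 => ?_⟩
    have := h y hy hy1
    simp only [Polynomial.eval_mul, Polynomial.eval_C, Polynomial.eval_pow, Polynomial.eval_X]
    exact this
  have e0 : EP M0 (Polynomial.C (Real.sqrt 3 * Real.pi ^ 3 / 54) * Polynomial.X ^ 2) := by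
    refine ⟨C5, c5, hc5, fun y hy hy1 => ?_⟩
    have := (h5 y hy hy1).1
    simp only [Polynomial.eval_mul, Polynomial.eval_C, Polynomial.eval_pow, Polynomial.eval_X]
    exact this
  have e2 : EP M2 (Polynomial.C (-(2 * Z5)) * Polynomial.X ^ 4) := by
    refine ⟨C5, c5, hc5, fun y hy hy1 => ?_⟩
    have := (h5 y hy hy1).2
    simp only [Polynomial.eval_mul, Polynomial.eval_C, Polynomial.eval_pow, Polynomial.eval_X]
    convert this using 2
    ring
  -- pf
  set α := Real.sqrt 3 * Real.pi ^ 5 / 324 with hα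
  have ep : ∃ L : ℝ, EP pf (Polynomial.C (-(α / 3)) * Polynomial.X ^ 3 + Polynomial.C L) := by
    have esd := (es.mul ed).const_mul (-1)
    have hder : ∀ y : ℝ, 0 < y → HasDerivAt (fun t => pf t + α / 3 * (t⁻¹) ^ 3)
        (-(sg y * D1 y) - α * (y⁻¹) ^ 4) y := by
      intro y hy
      have h1 := pf_deriv h13 hy
      have h2 := ((hasDerivAt_inv hy.ne').pow 3).const_mul (α / 3)
      refine (h1.add h2).congr_deriv ?_
      simp only [Nat.cast_ofNat]
      have hy' : (y ^ 2)⁻¹ = (y⁻¹) ^ 2 := by rw [inv_pow]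
      rw [hy', show (3 - 1 : ℕ) = 2 from rfl]
      ring
    have hsm : EP (fun y => -(sg y * D1 y) - α * (y⁻¹) ^ 4) 0 := by
      obtain ⟨C, c, hC, hc, h⟩ := esd.nonneg
      refine ⟨C, c, hc, fun y hy hy1 => ?_⟩
      have := h y hy hy1
      simp only [Polynomial.eval_mul, Polynomial.eval_C, Polynomial.eval_pow, Polynomial.eval_X,
        Polynomial.eval_zero, sub_zero] at this ⊢
      refine le_trans (le_of_eq ?_) this
      congr 1
      rw [hα]
      ring
    obtain ⟨L, hL⟩ := EP.of_deriv_small hder hsm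
    refine ⟨L, ?_⟩
    obtain ⟨C, c, hC, hc, h⟩ := hL.nonneg
    refine ⟨C, c, hc, fun y hy hy1 => ?_⟩
    have := h y hy hy1
    simp only [Polynomial.eval_add, Polynomial.eval_mul, Polynomial.eval_C, Polynomial.eval_pow,
      Polynomial.eval_X] at this ⊢
    convert this using 2
    ring
  obtain ⟨L, ep⟩ := ep
  -- the four pieces
  have q1 := (en.mul en).mul es
  have q2 := (en.mul ep).const_mul 2
  have q4 := e0.mul e2
  have q4' : EP (fun y => 8 / 3 * (y * (M0 y * M2 y)))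
      (Polynomial.C (8 / 3 * (Real.sqrt 3 * Real.pi ^ 3 / 54 * -(2 * Z5))) * Polynomial.X ^ 5) := by
    obtain ⟨C, c, hC, hc, h⟩ := q4.nonneg
    refine ⟨8 / 3 * C, c, hc, fun y hy hy1 => ?_⟩
    have := h y hy hy1
    simp only [Polynomial.eval_mul, Polynomial.eval_C, Polynomial.eval_pow, Polynomial.eval_X]
      at this ⊢
    have hfac : 8 / 3 * (y * (M0 y * M2 y)) -
        8 / 3 * (Real.sqrt 3 * Real.pi ^ 3 / 54 * -(2 * Z5)) * y⁻¹ ^ 5 =
        8 / 3 * (y * (M0 y * M2 y - Real.sqrt 3 * Real.pi ^ 3 / 54 * y⁻¹ ^ 2 *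
          (-(2 * Z5) * y⁻¹ ^ 4))) := by
      field_simp
    rw [hfac, abs_mul, abs_mul, abs_of_pos hy, abs_of_pos (by norm_num : (0:ℝ) < 8 / 3)]
    calc 8 / 3 * (y * |M0 y * M2 y - Real.sqrt 3 * Real.pi ^ 3 / 54 * y⁻¹ ^ 2 *
          (-(2 * Z5) * y⁻¹ ^ 4)|) ≤ 8 / 3 * (1 * (C * Real.exp (-(c / y)))) := by gcongr
      _ = _ := by ring
  have qs := (q1.add q2).add q4'
  have qt := qs.tendsto
  have hPt' : Tendsto (fun ε : ℝ => phb ε - PP.eval ε⁻¹) (𝓝[>] 0)
      (𝓝 (Real.pi ^ 3 * zeta5 / 36)) := by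
    have := hPt.comp tendsto_inv_nhdsGT_zero
    refine this.congr fun ε => ?_
    simp [phb, Function.comp_def]
  set PA := (Polynomial.C (-(Real.sqrt 3 * Real.pi ^ 3 / 54)) * Polynomial.X ^ 2 *
      (Polynomial.C (-(Real.sqrt 3 * Real.pi ^ 3 / 54)) * Polynomial.X ^ 2) *
      (Polynomial.C (-(Real.pi ^ 2 / 12)) * Polynomial.X) +
      Polynomial.C 2 * (Polynomial.C (-(Real.sqrt 3 * Real.pi ^ 3 / 54)) * Polynomial.X ^ 2 *
        (Polynomial.C (-(α / 3)) * Polynomial.X ^ 3 + Polynomial.C L)) +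
      Polynomial.C (8 / 3 * (Real.sqrt 3 * Real.pi ^ 3 / 54 * -(2 * Z5))) * Polynomial.X ^ 5 :
      Polynomial ℝ) with hPA
  have hPA0 : PA.coeff 0 = 0 := by
    rw [Polynomial.coeff_zero_eq_eval_zero, hPA]
    simp
  refine ⟨Polynomial.C 2 * PP - PA, by simp [hPP, hPA0], ?_⟩
  have hfin := (hPt'.const_mul 2).sub qt
  have hlim : 2 * (Real.pi ^ 3 * zeta5 / 36) - 0 = Real.pi ^ 3 * zeta5 / 18 := by ring
  rw [hlim] at hfin
  refine hfin.congr fun ε => ?_
  unfold Gp
  rw [Polynomial.eval_sub, Polynomial.eval_mul, Polynomial.eval_C]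
  ring

/-- assembly of (S4) -/
theorem s4_of (h15 : D15) (h13 : D13) (h16 : D16) (hPE : PE) (h3n : S3n) (h3s : S3s) (h3d : S3d)
    (h5a : S5a) (hN : PF.G_NSG) (hD : PF.G_DIFM) : S4 := by
  intro W hW
  obtain ⟨P, hP, hPt⟩ := Gp_zero h13 hPE h3n h3s h3d h5a
  have htop := Gp_top h13 h16 hN h5a
  have hI : ∀ ε : ℝ, 0 < ε → IntegrableOn (fun y => n1 y ^ 2 * sgp y - 8 * (M0 y * M2 y)) (Ioi ε) :=
    fun ε hε => (intg hN hε).sub ((hW.1 ε hε).const_mul 8)
  have hR : RegInt (fun y => n1 y ^ 2 * sgp y - 8 * (M0 y * M2 y)) (Real.pi ^ 3 * zeta5 / 18) := by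
    refine ⟨hI, P, hP, hPt.congr' ?_⟩
    filter_upwards [self_mem_nhdsWithin] with ε hε
    have h := integral_Ioi_of_hasDerivAt_of_tendsto' (a := ε)
      (fun x hx => Gp_deriv h15 h13 hN hD (lt_of_lt_of_le hε hx)) (hI ε hε) htop
    rw [h]; ring
  have h := (hR.add (hW.const_mul 8)).congr (G := fun y => n1 y ^ 2 * sgp y) ?_
  · exact h
  · intro y _
    ring

end EC237
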