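import Pool.Agent.Helper80.EC_F.S5
import Pool.Agent.Helper80.EC_F.S4
import Pool.Agent.Helper2.EC_C.Final
import Pool.Agent.Helper2.EC_F.S5A
import Pool.Agent.Helper19.EC_F.DIFM
import Pool.Agent.Helper18.EC_F.NSG

/-! # MP_ecc237_nt: (S5), (S5a), (S4 from parts D, E) without the hypotheses of parts C and F -/

set_option autoImplicit false

namespace EC237.PF

theorem s5_holds : S5 := s5_of_C ECC.Final.c10 ECC.Final.c11a ECC.Final.c11b ECC.Final.c17
  ECC.Final.c18F ECC.Final.c20a ECC.Final.c20x ECC.Final.c20f ECC.Final.ce4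

theorem s5a_holds : S5a := PkS5A.thm m0e m2e m2q PkSUMT.thm

/-- (S4) from (D.13), (D.15), (D.16) and part E -/
theorem s4_of_DE (h15 : D15) (h13 : D13) (h16 : D16) (hPE : PE) : S4 :=
  s4_of h15 h13 h16 hPE ECC.Final.s3n ECC.Final.s3s ECC.Final.s3d s5a_holds PkNSG.thm
    (PkDIFM.thm m0e m2q)

end EC237.PF
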