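import Pool.Agent.Helper80.EC_F.Main
import Pool.Agent.Helper49.EC_F.SUMA
import Pool.Agent.Helper86.EC_F.SUMT
import Pool.Agent.Helper65.EC_F.LIPN
import Pool.Agent.Helper90.EC_F.LIPM
import Pool.Agent.Helper11.EC_F.M2Q
import Pool.Agent.Helper7.EC_F.M0E
import Pool.Agent.Helper69.EC_F.M2E
import Pool.Agent.Helper29.EC_F.L3
import Pool.Agent.Helper74.EC_F.Z3
import Pool.Agent.Helper88.EC_F.INT3
import Pool.Agent.Helper73.EC_F.RINV
import Pool.Agent.Helper37.EC_F.PSI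
import Pool.Agent.Helper85.EC_F.EINT
import Pool.Agent.Helper70.EC_F.INT1
import Pool.Agent.Helper70.EC_F.INT24
import Pool.Agent.Helper13.EC_F.RZ
import Pool.Agent.Helper28.EC_F.PAR
import Pool.Agent.Helper62.EC_F.TU
import Pool.Agent.Helper9.EC_F.R12
import Pool.Agent.Helper77.EC_F.R13
import Pool.Agent.Helper40.EC_F.FINT

/-! # MP_ecc237_nt, PART F: (S5) from the facts of PART C -/

set_option autoImplicit false

namespace EC237.PF

theorem m0e : G_M0E := PkM0E.thm PkSUMA.thm PkSUMT.thm PkLIPM.thm (PkZ3.thm PkL3.thm)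
theorem m2e : G_M2E := PkM2E.thm PkSUMA.thm PkSUMT.thm PkLIPM.thm
theorem m2q : G_M2Q := PkM2Q.thm PkSUMA.thm PkSUMT.thm PkLIPN.thm

/-- (S5) -/
theorem s5_of_C (h10 : C10) (h11a : C11a) (h11b : C11b) (h17 : C17) (h18 : C18) (h20a : C20a)
    (h20x : C20x) (h20f : C20f) (hE4 : CE4) : S5 :=
  s5 m2q m0e (r4 m2e (PkEINT.thm PkPSI.thm PkSUMT.thm) PkRINV.thm)
    (PkRZ.thm PkSUMT.thm PkINT1.thm PkINT24.thm.1 PkINT3.thm PkINT24.thm.2)
    (PkTU.thm (EC237.PkPAR.thm PkSUMT.thm) h11a h11b h17 h18 h20a)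
    (PkR12.thm h20x PkL3.thm PkGAM.thm PkRINV.thm)
    (PkR13.thm h10 hE4 PkGAM.thm PkRINV.thm)
    (PkFINT.thm h17 h20f)

end EC237.PF
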