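import Pool.Agent.Helper80.EC_F.Defs

/-!
# MP_ecc237_nt, PART F: the packets
-/

set_option autoImplicit false

open MeasureTheory Filter Topology Set

namespace EC237.PF

/-! ### A. one-dimensional sums (Lipschitz formula) -/

/-- LIPN -/
def G_LIPN : Prop := ∀ v t : ℝ, 0 < v →
  HasSum (fun j : ℤ => (10 * ((j:ℝ) + t) ^ 2 - 2 * v ^ 2) / (((j:ℝ) + t) ^ 2 + v ^ 2) ^ 4)
    (-(2 * Real.pi ^ 3 / v ^ 3) * ∑' k : ℕ, ((k:ℝ) + 1) ^ 2 *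
      (1 + 2 * Real.pi * v * ((k:ℝ) + 1)) * Real.exp (-(2 * Real.pi * v * ((k:ℝ) + 1))) *
      Real.cos (2 * Real.pi * ((k:ℝ) + 1) * t))

/-- LIPM -/
def G_LIPM : Prop := ∀ w t : ℝ, 0 < w →
  HasSum (fun j : ℤ => ((j:ℝ) + t) / (((j:ℝ) + t) ^ 2 + w ^ 2) ^ 2)
    (2 * Real.pi ^ 2 / w * ∑' k : ℕ, ((k:ℝ) + 1) * Real.exp (-(2 * Real.pi * w * ((k:ℝ) + 1))) *
      Real.sin (2 * Real.pi * ((k:ℝ) + 1) * t)) ∧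
  HasSum (fun j : ℤ => ((j:ℝ) + t) * (20 * w ^ 2 - 4 * ((j:ℝ) + t) ^ 2) /
      (((j:ℝ) + t) ^ 2 + w ^ 2) ^ 4)
    (2 * Real.pi ^ 2 * ∑' k : ℕ, ((k:ℝ) + 1) * Real.sin (2 * Real.pi * ((k:ℝ) + 1) * t) *
      (4 * Real.pi ^ 2 * ((k:ℝ) + 1) ^ 2 / w + 4 * Real.pi * ((k:ℝ) + 1) / w ^ 2 + 2 / w ^ 3) *
      Real.exp (-(2 * Real.pi * w * ((k:ℝ) + 1))))

/-- SUMA: absolute convergence of the lattice sums -/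
def G_SUMA : Prop := ∀ y : ℝ, 0 < y →
  Summable (fun k : ℤ × ℤ => |(k.2:ℝ)| * y ^ 2 / Nn y k ^ 2) ∧
  Summable (fun k : ℤ × ℤ => |(k.2:ℝ)| * y ^ 2 * (10 * (k.1:ℝ) ^ 2 + 2 * (k.2:ℝ) ^ 2 * y ^ 2) /
    Nn y k ^ 4)

/-- SUMT: absolute convergence of the exponential series -/
def G_SUMT : Prop := (∀ y : ℝ, 0 < y → Summable (tM0 y)) ∧ (∀ y : ℝ, 0 < y → Summable (tM2 y)) ∧
  (∀ z : ℝ, 0 < z → Summable (tE z)) ∧ (∀ y : ℝ, 0 < y → Summable (tT y))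

/-- M2Q: expansion (F1) of `M_2` -/
def G_M2Q : Prop := ∀ y : ℝ, 0 < y → M2 y = M2s y

/-- M0E: expansion (F2) of `M_0` -/
def G_M0E : Prop := ∀ y : ℝ, 0 < y → M0 y = Real.sqrt 3 * Real.pi ^ 3 / 54 / y ^ 2 + M0e y

/-- M2E: expansion (F2) of `M_2` -/
def G_M2E : Prop := ∀ y : ℝ, 0 < y → M2 y = -(2 * Z5 / y ^ 4) + EE y⁻¹

/-! ### B. special values -/

/-- L3 -/
def G_L3 : Prop :=
  HasSum (fun n : ℕ => chi ((n:ℤ) + 1) / ((n:ℝ) + 1) ^ 3) (4 * Real.pi ^ 3 / (81 * Real.sqrt 3))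

/-- Z3 -/
def G_Z3 : Prop := HasSum (fun j : ℤ => 1 / (6 * (j:ℝ) + 1) ^ 3) (Real.sqrt 3 * Real.pi ^ 3 / 54)

/-- GAM: Gamma integrals -/
def G_GAM : Prop := ∀ (k : ℕ) (c : ℝ), 0 < c →
  IntegrableOn (fun z : ℝ => z ^ k * Real.exp (-(c * z))) (Ioi 0) ∧
  ∫ z in Ioi (0:ℝ), z ^ k * Real.exp (-(c * z)) = (k.factorial : ℝ) / c ^ (k + 1)

/-! ### C. calculus of regularised integrals -/

/-- RINV: passing to `z = 1/y` -/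
def G_RINV : Prop := ∀ (F E : ℝ → ℝ) (R : Polynomial ℝ),
  (∀ y : ℝ, 0 < y → F y = (R.eval y⁻¹ + E y⁻¹) / y ^ 2) → IntegrableOn E (Ioi 0) →
  RegInt F (∫ z in Ioi (0:ℝ), E z)

/-! ### D. the integral of `E` -/

/-- PSI -/
def G_PSI : Prop :=
  IntegrableOn (Psi 1) (Ioi 0) ∧ ∫ w in Ioi (0:ℝ), Psi 1 w = 2 * Real.pi ∧
  IntegrableOn (Psi (-1)) (Ioi 0) ∧ ∫ w in Ioi (0:ℝ), Psi (-1) w = -Real.pi

/-- EINT -/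
def G_EINT : Prop := IntegrableOn EE (Ioi 0) ∧
  ∫ z in Ioi (0:ℝ), EE z = -(29 / 32 * Real.pi * zeta5)

/-- R4 -/
def G_R4 : Prop := RegInt (fun y => M2 y / y ^ 2) (-(29 / 32 * Real.pi * zeta5))

/-! ### E. Rogers-Zudilin -/

/-- INT1: integration by parts -/
def G_INT1 : Prop := ∀ a b : ℝ, 0 < a → 0 < b →
  IntegrableOn (fun y : ℝ => (1 + b * y) / y ^ 2 * Real.exp (-(a / y) - b * y)) (Ioi 0) ∧
  IntegrableOn (fun y : ℝ => y * Real.exp (-(a / y) - b * y)) (Ioi 0) ∧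
  ∫ y in Ioi (0:ℝ), (1 + b * y) / y ^ 2 * Real.exp (-(a / y) - b * y) =
    b ^ 2 / a * ∫ y in Ioi (0:ℝ), y * Real.exp (-(a / y) - b * y)

/-- INT2: scaling -/
def G_INT2 : Prop := ∀ a b s : ℝ, 0 < a → 0 < b → 0 < s →
  ∫ y in Ioi (0:ℝ), (1 + b * y) / y ^ 2 * Real.exp (-(a / y) - b * y) =
    1 / s * ∫ y in Ioi (0:ℝ), (1 + b * s * y) / y ^ 2 * Real.exp (-(a / s / y) - b * s * y)

/-- INT3: a bound -/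
def G_INT3 : Prop := ∀ a b : ℝ, 0 < a → 0 < b →
  0 ≤ ∫ y in Ioi (0:ℝ), y * Real.exp (-(a / y) - b * y) ∧
  ∫ y in Ioi (0:ℝ), y * Real.exp (-(a / y) - b * y) ≤ 2880 / (a ^ 4 * b ^ 6)

/-- INT4: inversion -/
def G_INT4 : Prop := ∀ a b : ℝ, 0 < a → 0 < b →
  IntegrableOn (fun y : ℝ => Real.exp (-(3 * a * y) - b / (3 * y)) / y ^ 3) (Ioi 0) ∧
  ∫ y in Ioi (0:ℝ), y * Real.exp (-(a / y) - b * y) =
    1 / 9 * ∫ y in Ioi (0:ℝ), Real.exp (-(3 * a * y) - b / (3 * y)) / y ^ 3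

/-- RZ: the Rogers-Zudilin step -/
def G_RZ : Prop :=
  IntegrableOn (fun y => M0e y * M2s y) (Ioi 0) ∧
  IntegrableOn (fun y => TT y / y ^ 3) (Ioi 0) ∧
  ∫ y in Ioi (0:ℝ), M0e y * M2s y = -(Real.pi ^ 6 / 108) * ∫ y in Ioi (0:ℝ), TT y / y ^ 3

/-! ### F. the function `T` -/

/-- PAR: parity decomposition (F9) -/
def G_PAR : Prop := ∀ y : ℝ, 0 < y → ∀ Q q' : ℝ, Q = Real.exp (-(Real.pi * y)) →
  q' = Real.exp (-(Real.pi / (3 * y))) →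
  TT y = Real.sqrt 3 / 2 * (-(XS Q * ((aS q' - 1) / 6)) + 10 * (XS (Q ^ 2) * ((aS (q' ^ 2) - 1) / 6))
    + 4 * (XS Q - 3 * XS (Q ^ 2) - 4 * XS (Q ^ 4)) * ((aS (q' ^ 4) - 1) / 6))

/-- TU: (F10), (F11) -/
def G_TU : Prop := ∀ y : ℝ, 0 < y → ∀ Q : ℝ, Q = Real.exp (-(Real.pi * y)) →
  TT y = -(Real.sqrt 3 / 12) * (3 * XS Q - 2 * XS (Q ^ 2) - 16 * XS (Q ^ 4)) +
    y / 4 * (104 / 5 * (aS (Q ^ 2) * XS (Q ^ 2)) - 64 / 5 * (aS (Q ^ 4) * XS (Q ^ 4))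
      - 24 / 5 * ff y)

/-- R12 -/
def G_R12 : Prop := ∀ k : ℕ, 0 < k →
  RegInt (fun y => XS (Real.exp (-(Real.pi * y)) ^ k) / y ^ 3)
    (-((k:ℝ) ^ 2 * zeta5 / (12 * Real.pi ^ 2)))

/-- R13 -/
def G_R13 : Prop := ∀ k : ℕ, 0 < k →
  RegInt (fun y => aS (Real.exp (-(Real.pi * y)) ^ k) * XS (Real.exp (-(Real.pi * y)) ^ k) / y ^ 2)
    (-((k:ℝ) * zeta5 / (8 * Real.pi ^ 3)))

/-- FINT -/
def G_FINT : Prop := IntegrableOn (fun y => ff y / y ^ 2) (Ioi 0) ∧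
  ∫ y in Ioi (0:ℝ), ff y / y ^ 2 = 216 * ∫ y in Ioi (0:ℝ), ff y * y ^ 4

end EC237.PF
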