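import Pool.Agent.Helper80.EC_F.Goals
import Pool.Agent.Helper23.EC.MainStep

/-!
# MP_ecc237_nt, PART F: assembly of (S5)
-/

set_option autoImplicit false

open MeasureTheory Filter Topology Set

namespace EC237

theorem RegInt.congr {F G : ℝ → ℝ} {V : ℝ} (h : RegInt F V) (hFG : ∀ y : ℝ, 0 < y → F y = G y) :
    RegInt G V := by
  have hI : ∀ ε : ℝ, 0 < ε → ∫ y in Ioi ε, F y = ∫ y in Ioi ε, G y := fun ε hε =>
    setIntegral_congr_fun measurableSet_Ioi fun y hy => hFG y (hε.trans hy)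
  refine ⟨fun ε hε => (h.1 ε hε).congr_fun (fun y hy => hFG y (hε.trans hy)) measurableSet_Ioi, ?_⟩
  obtain ⟨P, hP, hPt⟩ := h.2
  refine ⟨P, hP, hPt.congr' ?_⟩
  filter_upwards [self_mem_nhdsWithin] with ε hε
  rw [hI ε hε]

theorem RegInt.add {F G : ℝ → ℝ} {V W : ℝ} (h1 : RegInt F V) (h2 : RegInt G W) :
    RegInt (fun y => F y + G y) (V + W) := by
  refine ⟨fun ε hε => (h1.1 ε hε).add (h2.1 ε hε), ?_⟩
  obtain ⟨P, hP, hPt⟩ := h1.2
  obtain ⟨R, hR, hRt⟩ := h2.2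
  refine ⟨P + R, by simp [hP, hR], (hPt.add hRt).congr' ?_⟩
  filter_upwards [self_mem_nhdsWithin] with ε hε
  rw [integral_add (h1.1 ε hε) (h2.1 ε hε), Polynomial.eval_add]
  ring

theorem RegInt.const_mul {F : ℝ → ℝ} {V : ℝ} (c : ℝ) (h : RegInt F V) :
    RegInt (fun y => c * F y) (c * V) := by
  refine ⟨fun ε hε => (h.1 ε hε).const_mul c, ?_⟩
  obtain ⟨P, hP, hPt⟩ := h.2
  refine ⟨Polynomial.C c * P, by simp [hP], (hPt.const_mul c).congr' ?_⟩
  filter_upwards [self_mem_nhdsWithin] with ε hε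
  rw [integral_const_mul, Polynomial.eval_mul, Polynomial.eval_C]
  ring

theorem RegInt.of_integrable {F : ℝ → ℝ} (h : IntegrableOn F (Ioi 0)) :
    RegInt F (∫ y in Ioi (0:ℝ), F y) := by
  refine ⟨fun ε hε => h.mono_set (Ioi_subset_Ioi hε.le), 0, by simp, ?_⟩
  simp only [Polynomial.eval_zero, sub_zero]
  have h1 : ∀ ε ∈ Ioi (0:ℝ), ∫ y in Ioi ε, F y =
      (∫ y in Ioi (0:ℝ), F y) - ∫ y in Ioc 0 ε, F y := by
    intro ε hε
    have hd : Disjoint (Ioc (0:ℝ) ε) (Ioi ε) := by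
      rw [Set.disjoint_left]; rintro x ⟨_, h2⟩ h3; exact absurd h3 (not_lt.mpr h2)
    have hu : Ioc (0:ℝ) ε ∪ Ioi ε = Ioi 0 := Ioc_union_Ioi_eq_Ioi (le_of_lt hε)
    have h4 := setIntegral_union hd measurableSet_Ioi
      (h.mono_set (by rw [← hu]; exact subset_union_left))
      (h.mono_set (by rw [← hu]; exact subset_union_right))
    rw [hu] at h4
    rw [h4]; ring
  have h2 : Tendsto (fun ε : ℝ => ∫ y in Ioc 0 ε, F y) (𝓝[>] 0) (𝓝 0) := by
    have h5 : IntegrableOn F (Ioc 0 1) := h.mono_set Ioc_subset_Ioi_self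
    have h6 : IntervalIntegrable F volume 0 1 :=
      (intervalIntegrable_iff_integrableOn_Ioc_of_le zero_le_one).mpr h5
    have h7 := intervalIntegral.continuousOn_primitive_interval' h6 (by simp : (0:ℝ) ∈ uIcc 0 1)
    have h8 := (h7 0 (by simp)).tendsto
    rw [intervalIntegral.integral_same] at h8
    have h9 : Tendsto (fun ε : ℝ => ∫ y in (0:ℝ)..ε, F y) (𝓝[>] 0) (𝓝 0) := by
      refine h8.mono_left ?_
      rw [uIcc_of_le zero_le_one]
      have : (𝓝[>] (0:ℝ)) = 𝓝[Ioc 0 1] 0 := (nhdsWithin_Ioc_eq_nhdsGT zero_lt_one).symm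
      rw [this]
      exact nhdsWithin_mono _ Ioc_subset_Icc_self
    refine h9.congr' ?_
    filter_upwards [self_mem_nhdsWithin] with ε hε
    rw [intervalIntegral.integral_of_le (le_of_lt hε)]
  have h3 : Tendsto (fun ε : ℝ => (∫ y in Ioi (0:ℝ), F y) - ∫ y in Ioc 0 ε, F y) (𝓝[>] 0)
      (𝓝 ((∫ y in Ioi (0:ℝ), F y) - 0)) := tendsto_const_nhds.sub h2
  rw [sub_zero] at h3
  refine h3.congr' ?_
  filter_upwards [self_mem_nhdsWithin] with ε hε
  rw [h1 ε hε]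

namespace PF

/-- R4 from M2E, EINT, RINV -/
theorem r4 (h1 : G_M2E) (h2 : G_EINT) (h3 : G_RINV) : G_R4 := by
  have h := h3 (fun y => M2 y / y ^ 2) EE (Polynomial.C (-(2 * Z5)) * Polynomial.X ^ 4) ?_ h2.1
  · rw [h2.2] at h; exact h
  · intro y hy
    show M2 y / y ^ 2 = _
    rw [h1 y hy]
    simp only [Polynomial.eval_mul, Polynomial.eval_C, Polynomial.eval_pow, Polynomial.eval_X]
    congr 1
    rw [inv_pow]
    ring

/-- the integral of `T / y³` -/
theorem ti (hTU : G_TU) (hRZ : G_RZ) (h12 : G_R12) (h13 : G_R13) (hF : G_FINT) :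
    ∫ y in Ioi (0:ℝ), TT y / y ^ 3 =
      -(29 * Real.sqrt 3 / 16 * zeta5 / Real.pi ^ 2) + 3 / 10 * zeta5 / Real.pi ^ 3
        - 1296 / 5 * ∫ y in Ioi (0:ℝ), ff y * y ^ 4 := by
  have hR := RegInt.of_integrable hRZ.2.1
  have x1 := (h12 1 one_pos).const_mul (-(Real.sqrt 3 / 12) * 3)
  have x2 := (h12 2 two_pos).const_mul (Real.sqrt 3 / 12 * 2)
  have x4 := (h12 4 (by norm_num)).const_mul (Real.sqrt 3 / 12 * 16)
  have y2 := (h13 2 two_pos).const_mul (26 / 5)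
  have y4 := (h13 4 (by norm_num)).const_mul (-(16 / 5))
  have z := (RegInt.of_integrable hF.1).const_mul (-(6 / 5))
  have hS := ((((x1.add x2).add x4).add y2).add y4).add z
  have hS' := hS.congr (G := fun y => TT y / y ^ 3) ?_
  · have hu := hR.unique hS'
    rw [hu, hF.2]
    have hpi : Real.pi ≠ 0 := Real.pi_ne_zero
    push_cast
    field_simp
    ring
  · intro y hy
    show _ = TT y / y ^ 3
    rw [hTU y hy _ rfl]
    have hy' : y ≠ 0 := hy.ne'
    simp only [pow_one]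
    field_simp
    ring

theorem s5 (hM2Q : G_M2Q) (hM0E : G_M0E) (hR4 : G_R4) (hRZ : G_RZ) (hTU : G_TU)
    (h12 : G_R12) (h13 : G_R13) (hF : G_FINT) : S5 := by
  have hti := ti hTU hRZ h12 h13 hF
  have h1 := hR4.const_mul (Real.sqrt 3 * Real.pi ^ 3 / 54)
  have h2 := RegInt.of_integrable hRZ.1
  have h3 := (h1.add h2).congr (G := fun y => M0 y * M2 y) ?_
  · have hV : Real.sqrt 3 * Real.pi ^ 3 / 54 * -(29 / 32 * Real.pi * zeta5) +
        ∫ y in Ioi (0:ℝ), M0e y * M2s y =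
      3 / 40 * Real.pi ^ 6 * (32 * ∫ y in Set.Ioi (0:ℝ), ff y * y ^ 4) -
        Real.pi ^ 3 * zeta5 / 360 := by
      rw [hRZ.2.2, hti]
      have hpi : Real.pi ≠ 0 := Real.pi_ne_zero
      field_simp
      ring
    rw [hV] at h3
    exact h3
  · intro y hy
    have hy' : y ≠ 0 := hy.ne'
    show Real.sqrt 3 * Real.pi ^ 3 / 54 * (M2 y / y ^ 2) + M0e y * M2s y = M0 y * M2 y
    rw [hM0E y hy, ← hM2Q y hy]
    field_simp

end PF

end EC237
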